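import Pool.Agent.W8.LS.Stm

/-!
Project LS (helper8, MP_89d91e_gt), subtask LS-Neck.
-/

open Complex (I)

namespace Pool.Agent.W119.LS

open Pool.Agent.W8.LS

noncomputable section

theorem kap_pos : 0 < kap := Real.exp_pos _

theorem cosh_two_pi {ζ z : ℂ} (h : Complex.exp (2 * (Real.pi : ℂ) * z) = ζ) :
    Complex.cosh (2 * (Real.pi : ℂ) * z) = (ζ + ζ⁻¹) / 2 := by
  rw [Complex.cosh, Complex.exp_neg, h]

theorem rel_shift (P : V) (n : ℤ) : rel P (P.1 + n, P.2.1, P.2.2.1, P.2.2.2) := by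
  refine ⟨1, 0, 0, n, 0, 0, 0, Or.inl rfl, ?_⟩
  simp [act]

theorem Neck_proof : Neck := by
  intro hL G hG N a b ha hb h1 h2
  obtain ⟨hF, hHf, hC, hLI, hlam⟩ := hL
  obtain ⟨hEq, -, -, hPt, -, -, hFlip, -⟩ := hF
  obtain ⟨-, hHodd, -, hHrefl⟩ := hHf
  obtain ⟨-, -, -, hGJ, -, -⟩ := hG
  have hk := kap_pos
  have hpi := Real.pi_pos
  have hpiC : (Real.pi : ℂ) ≠ 0 := by exact_mod_cast hpi.ne'
  set ζ : ℂ := (kap : ℂ) * (b / a) with hζ
  set ζ' : ℂ := (kap : ℂ) * (a / b) with hζ'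
  have hnk : ‖(kap : ℂ)‖ = kap := by
    rw [Complex.norm_real]; exact abs_of_pos hk
  have hn1 : 4 ≤ ‖ζ‖ := by rw [hζ, norm_mul, hnk]; exact h1
  have hn2 : 4 ≤ ‖ζ'‖ := by rw [hζ', norm_mul, hnk]; exact h2
  have hζ0 : ζ ≠ 0 := by
    intro h; rw [h, norm_zero] at hn1; linarith
  have hζ0' : ζ' ≠ 0 := by
    intro h; rw [h, norm_zero] at hn2; linarith
  have hprod : ζ * ζ' = Complex.exp (Real.pi : ℂ) := by
    have hkk : (kap : ℂ) * kap = Complex.exp (Real.pi : ℂ) := by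
      have : kap * kap = Real.exp Real.pi := by
        unfold kap
        rw [← Real.exp_add]; congr 1; ring
      rw [← Complex.ofReal_mul, this, Complex.ofReal_exp]
    rw [hζ, hζ', ← hkk]
    field_simp
  set z : ℂ := Complex.log ζ / (2 * (Real.pi : ℂ)) with hz
  have hez : Complex.exp (2 * (Real.pi : ℂ) * z) = ζ := by
    rw [hz, mul_div_cancel₀ _ (mul_ne_zero two_ne_zero hpiC), Complex.exp_log hζ0]
  have hez' : Complex.exp (2 * (Real.pi : ℂ) * (1 / 2 - z)) = ζ' := by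
    have : 2 * (Real.pi : ℂ) * (1 / 2 - z) = (Real.pi : ℂ) - 2 * (Real.pi : ℂ) * z := by ring
    rw [this, Complex.exp_sub, hez, ← hprod]
    field_simp
  have hc1 : Complex.cosh (2 * (Real.pi : ℂ) * z) = G ζ := by
    rw [cosh_two_pi hez, hGJ ζ hn1]
  have hc2 : Complex.cosh (2 * (Real.pi : ℂ) * (1 / 2 - z)) = G ζ' := by
    rw [cosh_two_pi hez', hGJ ζ' hn2]
  have hzre : z.re = Real.log ‖ζ‖ / (2 * Real.pi) := by
    have : (2 * (Real.pi : ℂ)) = ((2 * Real.pi : ℝ) : ℂ) := by push_cast; ring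
    rw [hz, this, Complex.div_ofReal_re, Complex.log_re]
  have hzim : z.im = Complex.arg ζ / (2 * Real.pi) := by
    have : (2 * (Real.pi : ℂ)) = ((2 * Real.pi : ℝ) : ℂ) := by push_cast; ring
    rw [hz, this, Complex.div_ofReal_im, Complex.log_im]
  have hx0 : 0 ≤ z.re := by
    rw [hzre]
    exact div_nonneg (Real.log_nonneg (by linarith)) (by positivity)
  have hx1 : z.re ≤ 1 / 2 := by
    have hnn : ‖ζ‖ * ‖ζ'‖ = Real.exp Real.pi := by
      rw [← norm_mul, hprod, Complex.norm_exp, Complex.ofReal_re]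
    have hle : ‖ζ‖ ≤ Real.exp Real.pi := by nlinarith [norm_nonneg ζ]
    have hlog : Real.log ‖ζ‖ ≤ Real.pi := by
      rw [← Real.log_exp Real.pi]
      exact Real.log_le_log (by linarith) hle
    rw [hzre, div_le_iff₀ (by positivity)]
    linarith
  have harg : Complex.arg ζ = Complex.arg (b / a) := by
    rw [hζ, Complex.arg_real_mul _ hk]
  obtain ⟨n, hn⟩ : ∃ n : ℤ, Complex.arg b = Complex.arg (b / a) + Complex.arg a + n * (2 * Real.pi) := by
    have h3 : ((Complex.arg (b / a) + Complex.arg a : ℝ) : Real.Angle) = (Complex.arg b : Real.Angle) := by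
      rw [Real.Angle.coe_add, ← Complex.arg_mul_coe_angle (div_ne_zero hb ha) ha,
        div_mul_cancel₀ _ ha]
    obtain ⟨k, hk⟩ := Real.Angle.angle_eq_iff_two_pi_dvd_sub.1 h3
    refine ⟨-k, ?_⟩
    push_cast
    linarith
  have hE1 := hlam 0 0 0 0 N (Complex.arg a / (2 * Real.pi)) z (G ζ) hc1
  have hE2 := hlam (-1) 0 (-(N : ℤ)) 0 N (Complex.arg b / (2 * Real.pi)) (1 / 2 - z) (G ζ') hc2
  rw [hE1, hE2, hPt]
  refine ⟨?_, fun _ => rfl⟩
  have hr1 := (hFlip (-1) 0 (-(N : ℤ)) 0 (Complex.arg b / (2 * Real.pi)) (-(N : ℝ) / √2)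
    (1 / 2 - z) ((((N : ℝ) * hf (1 / 2 - z).re : ℝ) : ℂ))).1
  refine hEq.trans ?_ (hEq.symm hr1)
  have hr2 := rel_shift (site 0 0 0 0 (sheet N (Complex.arg a / (2 * Real.pi)) z)) n
  convert hr2 using 1
  have hre : (1 / 2 - z).re = 1 / 2 - z.re := by
    have : (1 / 2 : ℂ) = ((1 / 2 : ℝ) : ℂ) := by push_cast; ring
    rw [Complex.sub_re, this, Complex.ofReal_re]
  have him : (-(1 / 2 - z)).im = z.im := by
    have : (1 / 2 : ℂ) = ((1 / 2 : ℝ) : ℂ) := by push_cast; ring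
    rw [Complex.neg_im, Complex.sub_im, this, Complex.ofReal_im]; ring
  have hs2 : (0 : ℝ) < √2 := by positivity
  have hss : √2 * √2 = 2 := Real.mul_self_sqrt (by norm_num)
  have hc0 : (((-1 : ℤ) : ℝ) * (-(N : ℝ) / √2) + (√2 * ((-(N : ℤ) : ℤ) : ℝ) + 2 * ((0 : ℤ) : ℝ)) / 2 : ℝ) = 0 := by
    push_cast
    field_simp
    nlinarith [hss]
  unfold site sheet
  refine Prod.ext ?_ (Prod.ext ?_ (Prod.ext ?_ ?_))
  · simp only
    rw [him, hzim, harg, hn]
    push_cast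
    field_simp
    ring
  · simp
  · simp only
    push_cast
    ring
  · simp only
    rw [hc0, hre, hHrefl _ hx0 hx1]
    push_cast
    ring

end

end Pool.Agent.W119.LS
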